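import Mathlib

/-!
# Geproci sets: definitions

Points of `ℙ³` are elements of `ℙ ℂ (Fin 4 → ℂ)`, lines and planes of `ℙ³` are the linear
subspaces of `ℂ⁴` of dimension 2 and 3.  Projecting from the point `[P]` to a plane (identified
with `ℙ²`) is the map induced by a linear surjection `φ : ℂ⁴ → ℂ³` with kernel `ℂ P`.
-/

namespace Pool.Agent.T9h86.Geproci

open MvPolynomial LinearAlgebra.Projectivization

/-- The image of a set `Z` of points of `ℙ³` under the (rational) map `[x] ↦ [φ x]`. -/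
def projImage (φ : (Fin 4 → ℂ) →ₗ[ℂ] (Fin 3 → ℂ)) (Z : Set (ℙ ℂ (Fin 4 → ℂ))) :
    Set (ℙ ℂ (Fin 3 → ℂ)) :=
  {q | ∃ (x : Fin 4 → ℂ) (hx : x ≠ 0) (h : φ x ≠ 0),
    Projectivization.mk ℂ x hx ∈ Z ∧ q = Projectivization.mk ℂ (φ x) h}

/-- `S ⊆ ℙ²` is the reduced complete intersection of a plane curve `F = 0` of degree `a` and a
plane curve `G = 0` of degree `b` without common component: `F` and `G` are relatively prime
forms, `S` is their set of common zeros, and the two curves meet transversally in every point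
of `S`. -/
def IsReducedCI (a b : ℕ) (S : Set (ℙ ℂ (Fin 3 → ℂ))) : Prop :=
  ∃ F G : MvPolynomial (Fin 3) ℂ, F.IsHomogeneous a ∧ G.IsHomogeneous b ∧ IsRelPrime F G ∧
    (∀ (y : Fin 3 → ℂ) (hy : y ≠ 0),
      Projectivization.mk ℂ y hy ∈ S ↔ (eval y F = 0 ∧ eval y G = 0)) ∧
    (∀ (y : Fin 3 → ℂ) (hy : y ≠ 0), Projectivization.mk ℂ y hy ∈ S →
      LinearIndependent ℂ ![fun i => eval y (pderiv i F), fun i => eval y (pderiv i G)])

/-- `Z` is `(a,b)`-geproci: it has `a * b` points and there is a nonzero polynomial `Φ` such that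
for every point `[P]` with `Φ P ≠ 0` (a general point) the image of `Z` under projection from
`[P]` is the reduced complete intersection of plane curves of degrees `a` and `b`. -/
def IsGeproci (a b : ℕ) (Z : Set (ℙ ℂ (Fin 4 → ℂ))) : Prop :=
  Z.Finite ∧ Z.ncard = a * b ∧ ∃ Φ : MvPolynomial (Fin 4) ℂ, Φ ≠ 0 ∧
    ∀ P : Fin 4 → ℂ, P ≠ 0 → eval P Φ ≠ 0 → ∀ φ : (Fin 4 → ℂ) →ₗ[ℂ] (Fin 3 → ℂ),
      Function.Surjective φ → LinearMap.ker φ = Submodule.span ℂ {P} →
        IsReducedCI a b (projImage φ Z)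

/-- `(a,b)`-grid: the points `L i ∩ M j` for `a` pairwise skew lines `L i` and `b` pairwise skew
lines `M j` such that every `L i` meets every `M j` in one point. -/
def IsGrid (a b : ℕ) (Z : Set (ℙ ℂ (Fin 4 → ℂ))) : Prop :=
  ∃ (L : Fin a → Submodule ℂ (Fin 4 → ℂ)) (M : Fin b → Submodule ℂ (Fin 4 → ℂ)),
    (∀ i, Module.finrank ℂ (L i) = 2) ∧ (∀ j, Module.finrank ℂ (M j) = 2) ∧
    (∀ i i', i ≠ i' → L i ⊓ L i' = ⊥) ∧ (∀ j j', j ≠ j' → M j ⊓ M j' = ⊥) ∧
    (∀ i j, Module.finrank ℂ (L i ⊓ M j : Submodule ℂ (Fin 4 → ℂ)) = 1) ∧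
    Z = {p | ∃ i j, p.submodule = L i ⊓ M j}

/-- `Z` is contained in a plane. -/
def IsDegenerate (Z : Set (ℙ ℂ (Fin 4 → ℂ))) : Prop :=
  ∃ H : Submodule ℂ (Fin 4 → ℂ), Module.finrank ℂ H = 3 ∧ ∀ p ∈ Z, p.submodule ≤ H

/-- nontrivial `(a,b)`-geproci sets: not in a plane, and not a grid (of any type) -/
def IsNontrivialGeproci (a b : ℕ) (Z : Set (ℙ ℂ (Fin 4 → ℂ))) : Prop :=
  IsGeproci a b Z ∧ ¬ IsDegenerate Z ∧ ∀ c d, ¬ IsGrid c d Z

/-- projective equivalence -/
def ProjEquiv (Z Z' : Set (ℙ ℂ (Fin 4 → ℂ))) : Prop :=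
  ∃ g : (Fin 4 → ℂ) ≃ₗ[ℂ] (Fin 4 → ℂ),
    Projectivization.map (g : (Fin 4 → ℂ) →ₗ[ℂ] (Fin 4 → ℂ)) g.injective '' Z = Z'

/-- The equivalence relation on the nontrivial `(a,b)`-geproci sets whose classes are the
projective equivalence classes. -/
def geprociSetoid (a b : ℕ) : Setoid {Z : Set (ℙ ℂ (Fin 4 → ℂ)) // IsNontrivialGeproci a b Z} where
  r Z Z' := ProjEquiv Z.1 Z'.1
  iseqv := {
    refl := fun Z => ⟨LinearEquiv.refl ℂ _, by
      refine (Set.image_congr (g := id) fun p _ => ?_).trans (Set.image_id _)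
      induction p using Projectivization.ind with
      | h v hv => simp [Projectivization.map_mk]⟩
    symm := by
      rintro Z Z' ⟨g, hg⟩
      refine ⟨g.symm, ?_⟩
      rw [← hg, Set.image_image]
      refine (Set.image_congr (g := id) fun p _ => ?_).trans (Set.image_id _)
      induction p using Projectivization.ind with
      | h v hv => simp [Projectivization.map_mk]
    trans := by
      rintro Z Z' Z'' ⟨g, hg⟩ ⟨g', hg'⟩
      refine ⟨g.trans g', ?_⟩
      rw [← hg', ← hg, Set.image_image]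
      refine Set.image_congr fun p _ => ?_
      induction p using Projectivization.ind with
      | h v hv => simp [Projectivization.map_mk] }

end Pool.Agent.T9h86.Geproci
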