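import Mathlib

/-!
Algebraic identities behind the one-parameter family of `(4,6)`-geproci sets
`D4 ∪ T(D4)` on four skew lines.
-/

namespace Pool.Agent.T9h86.Geproci

section gen

variable {R : Type*} [CommRing R]

/-- Plücker coordinate of the line `Px`. -/
def pl (P x : Fin 4 → R) (i j : Fin 4) : R := P i * x j - P j * x i

/-- The cubic cone with vertex `P` through the twelve points with parameter `c`. -/
def cub (c : R) (P x : Fin 4 → R) : R :=
  c * (2 * pl P x 1 2 ^ 3 + 12 * pl P x 1 2 * pl P x 0 3 ^ 2 - 6 * pl P x 0 3 * pl P x 1 2 ^ 2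
      + 12 * pl P x 0 2 * pl P x 1 2 * pl P x 1 3 - pl P x 0 2 ^ 3 + 8 * pl P x 1 3 ^ 3)
    + 8 * c ^ 2 * pl P x 0 1 ^ 3 - pl P x 2 3 ^ 3

/-- Parametrization of the four lines: `none` is the line `x₁ = x₂ = 0`, and `some a` is the line
`x₁ = a x₀`, `x₂ = -2 a² x₃`. -/
def r : Option R → R → R → (Fin 4 → R)
  | none, u, v => ![u, 0, 0, v]
  | some a, u, v => ![u, a * u, 2 * a ^ 2 * v, -v]

/-- first equation of the line -/
def m : Option R → (Fin 4 → R) → R
  | none, x => x 1
  | some a, x => x 1 - a * x 0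

/-- second equation of the line -/
def n : Option R → (Fin 4 → R) → R
  | none, x => - x 2
  | some a, x => x 2 + 2 * a ^ 2 * x 3

/-- equation of the plane spanned by `P` and the line `o` -/
def H (o : Option R) (P x : Fin 4 → R) : R := m o P * n o x - n o P * m o x

/-- the cubic cone restricted to the line `o` is `kap * (v³ - c u³)` -/
def kap (o : Option R) (c : R) (P : Fin 4 → R) : R := 8 * c * m o P ^ 3 + n o P ^ 3

/-- `o` is one of the four lines -/
def IsL (o : Option R) : Prop := ∀ a, o = some a → a ^ 3 = 1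

lemma isL_none : IsL (none : Option R) := by intro a h; cases h

lemma isL_some {a : R} (h : a ^ 3 = 1) : IsL (some a) := by
  intro b hb; cases hb; exact h

lemma isL_map {R' : Type*} [CommRing R'] (f : R →+* R') {o : Option R} (h : IsL o) :
    IsL (o.map f) := by
  rcases o with _ | a
  · exact isL_none
  · exact isL_some (by rw [← map_pow, h a rfl, map_one])

lemma pl_add (P x : Fin 4 → R) (l : R) (i j : Fin 4) :
    pl P (fun k => x k + l * P k) i j = pl P x i j := by
  simp only [pl]; ring

lemma cub_add (c : R) (P x : Fin 4 → R) (l : R) :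
    cub c P (fun k => x k + l * P k) = cub c P x := by
  simp only [cub, pl_add]

lemma H_add (o : Option R) (P x : Fin 4 → R) (l : R) :
    H o P (fun k => x k + l * P k) = H o P x := by
  cases o <;> simp only [H, m, n] <;> ring

lemma H_lin (o : Option R) (P x z : Fin 4 → R) (t : R) :
    H o P (fun k => x k + t * z k) = H o P x + t * H o P z := by
  cases o <;> simp only [H, m, n] <;> ring

lemma m_r (o : Option R) (u v : R) : m o (r o u v) = 0 := by
  cases o <;> simp [m, r]

lemma n_r (o : Option R) (u v : R) : n o (r o u v) = 0 := by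
  cases o <;> simp [n, r]

lemma H_r (o : Option R) (P : Fin 4 → R) (u v : R) : H o P (r o u v) = 0 := by
  simp [H, m_r, n_r]

lemma r_zero (o : Option R) (u v : R) : r o u v 0 = u := by
  cases o <;> simp [r]

lemma r_smul (o : Option R) (t u v : R) (k : Fin 4) : r o (t * u) (t * v) k = t * r o u v k := by
  rcases o with _ | a <;> fin_cases k <;> simp [r] <;> ring

lemma r_add (o : Option R) (u v u' v' : R) (k : Fin 4) :
    r o (u + u') (v + v') k = r o u v k + r o u' v' k := by
  rcases o with _ | a <;> fin_cases k <;> simp [r] <;> ring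

/-- restriction of the cubic cone to the lines -/
lemma cub_r (o : Option R) (ho : IsL o) (c : R) (P : Fin 4 → R) (u v : R) :
    cub c P (r o u v) = kap o c P * (v ^ 3 - c * u ^ 3) := by
  rcases o with _ | a
  · simp [cub, pl, r, kap, m, n]; ring
  · have ha : a ^ 3 = 1 := ho a rfl
    simp only [cub, pl, r, kap, m, n]
    simp only [Matrix.cons_val_zero, Matrix.cons_val_one, Matrix.cons_val]
    linear_combination (16 * c * v ^ 3 * P 1 ^ 3 + (-2) * c * u ^ 3 * P 2 ^ 3
      + (-24) * a * c * v ^ 3 * P 0 * P 1 ^ 2 + 24 * a * c * u * v ^ 2 * P 1 ^ 2 * P 3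
      + 12 * a * c * u * v ^ 2 * P 0 ^ 2 * P 2 + 12 * a * c * u ^ 2 * v * P 1 * P 2 ^ 2
      + 24 * a * c * u ^ 2 * v * P 0 * P 2 * P 3 + 12 * a * c * u ^ 3 * P 2 * P 3 ^ 2
      + (-24) * a ^ 2 * c * u * v ^ 2 * P 1 ^ 2 * P 2
      + (-48) * a ^ 2 * c * u * v ^ 2 * P 0 * P 1 * P 3 + 16 * a ^ 3 * c * v ^ 3 * P 1 ^ 3
      + (-8) * a ^ 3 * c * v ^ 3 * P 0 ^ 3 + 8 * a ^ 3 * c * u ^ 3 * P 3 ^ 3) * ha

variable {R' : Type*} [CommRing R']

lemma map_cub (f : R →+* R') (c : R) (P x : Fin 4 → R) :
    f (cub c P x) = cub (f c) (fun i => f (P i)) (fun i => f (x i)) := by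
  simp only [cub, pl, map_add, map_sub, map_mul, map_pow, map_ofNat]

lemma map_m (f : R →+* R') (o : Option R) (x : Fin 4 → R) :
    f (m o x) = m (o.map f) (fun i => f (x i)) := by
  cases o <;> simp [m]

lemma map_n (f : R →+* R') (o : Option R) (x : Fin 4 → R) :
    f (n o x) = n (o.map f) (fun i => f (x i)) := by
  cases o <;> simp [n, map_ofNat f]

lemma map_H (f : R →+* R') (o : Option R) (P x : Fin 4 → R) :
    f (H o P x) = H (o.map f) (fun i => f (P i)) (fun i => f (x i)) := by
  simp only [H, map_sub, map_mul, map_m, map_n]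

lemma map_kap (f : R →+* R') (o : Option R) (c : R) (P : Fin 4 → R) :
    f (kap o c P) = kap (o.map f) (f c) (fun i => f (P i)) := by
  simp only [kap, map_add, map_mul, map_pow, map_m, map_n, map_ofNat]

lemma map_r (f : R →+* R') (o : Option R) (u v : R) (k : Fin 4) :
    f (r o u v k) = r (o.map f) (f u) (f v) k := by
  rcases o with _ | a <;> fin_cases k <;> simp [r, map_ofNat f]

end gen

section field

variable {K : Type*} [Field K]

/-- the planes `⟨P, line o'⟩` avoid the points on the other lines, for general `P` -/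
lemma H_ne {o o' : Option K} (ho : IsL o) (ho' : IsL o') (hne : o ≠ o') (P : Fin 4 → K) (s : K)
    (hk : kap o' (s ^ 3) P ≠ 0) : H o' P (r o 1 s) ≠ 0 := by
  intro h
  apply hk
  rcases o with _ | a <;> rcases o' with _ | b
  · exact absurd rfl hne
  · have hb : b ^ 3 = 1 := ho' b rfl
    simp only [H, m, n, r, kap] at h ⊢
    simp only [Matrix.cons_val_zero, Matrix.cons_val_one, Matrix.cons_val] at h
    set M := P 1 - b * P 0
    set N := P 2 + 2 * b ^ 2 * P 3
    have h1 : N + 2 * b * s * M = 0 := by
      linear_combination b ^ 2 * h - (N + 2 * b * s * M) * hb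
    linear_combination (N ^ 2 - 2 * b * s * M * N + 4 * b ^ 2 * s ^ 2 * M ^ 2) * h1
      - 8 * s ^ 3 * M ^ 3 * hb
  · have ha : a ^ 3 = 1 := ho a rfl
    simp only [H, m, n, r, kap] at h ⊢
    simp only [Matrix.cons_val_zero, Matrix.cons_val_one, Matrix.cons_val] at h
    have h1 : P 2 - 2 * a * s * P 1 = 0 := by
      linear_combination a ^ 2 * h - (P 2 - 2 * a * s * P 1) * ha
    linear_combination (-(P 2 ^ 2 + 2 * a * s * P 1 * P 2 + 4 * a ^ 2 * s ^ 2 * P 1 ^ 2)) * h1
      - 8 * s ^ 3 * P 1 ^ 3 * ha
  · have ha : a ^ 3 = 1 := ho a rfl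
    have hb : b ^ 3 = 1 := ho' b rfl
    have hab : a - b ≠ 0 := fun h0 => hne (by rw [sub_eq_zero.1 h0])
    simp only [H, m, n, r, kap] at h ⊢
    simp only [Matrix.cons_val_zero, Matrix.cons_val_one, Matrix.cons_val] at h
    set M := P 1 - b * P 0
    set N := P 2 + 2 * b ^ 2 * P 3
    have h2 : a ^ 2 + a * b + b ^ 2 = 0 := by
      apply mul_left_cancel₀ hab
      linear_combination ha - hb
    have h1 : 2 * s * (a + b) * M - N = 0 := by
      apply mul_left_cancel₀ hab
      linear_combination h
    have h3 : (a + b) ^ 3 = -1 := by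
      linear_combination (a + 2 * b) * h2 - hb
    linear_combination (-(N ^ 2 + 2 * s * (a + b) * M * N + 4 * s ^ 2 * (a + b) ^ 2 * M ^ 2)) * h1
      + 8 * s ^ 3 * M ^ 3 * h3

/-- points of the plane `⟨P, line o⟩` -/
lemma exists_of_H {o : Option K} {c : K} {P x : Fin 4 → K}
    (hk : kap o c P ≠ 0) (h : H o P x = 0) :
    ∃ l u v : K, ∀ k, x k = r o u v k + l * P k := by
  have key : ∀ y : Fin 4 → K, m o y = 0 → n o y = 0 → ∃ u v, ∀ k, y k = r o u v k := by
    intro y hm hn
    rcases o with _ | a
    · refine ⟨y 0, y 3, fun k => ?_⟩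
      simp only [m, n] at hm hn
      fin_cases k <;> simp [r, hm]
      simpa using hn
    · refine ⟨y 0, - y 3, fun k => ?_⟩
      simp only [m, n] at hm hn
      fin_cases k <;> simp [r]
      · linear_combination hm
      · linear_combination hn
  have hl : ∃ l, m o (fun k => x k - l * P k) = 0 ∧ n o (fun k => x k - l * P k) = 0 := by
    have em : ∀ l, m o (fun k => x k - l * P k) = m o x - l * m o P := by
      intro l; cases o <;> simp only [m] <;> ring
    have en : ∀ l, n o (fun k => x k - l * P k) = n o x - l * n o P := by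
      intro l; cases o <;> simp only [n] <;> ring
    by_cases hM : m o P = 0
    · have hN : n o P ≠ 0 := by
        intro hN; apply hk; simp [kap, hM, hN]
      refine ⟨n o x / n o P, ?_, ?_⟩
      · rw [em, hM]
        have : n o P * m o x = 0 := by
          simp only [H, hM] at h; linear_combination -h
        rcases mul_eq_zero.1 this with h' | h'
        · exact absurd h' hN
        · simp [h']
      · rw [en]; field_simp; ring
    · refine ⟨m o x / m o P, ?_, ?_⟩
      · rw [em]; field_simp; ring
      · rw [en]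
        simp only [H] at h
        field_simp
        linear_combination h
  obtain ⟨l, hm, hn⟩ := hl
  obtain ⟨u, v, huv⟩ := key _ hm hn
  exact ⟨l, u, v, fun k => by rw [← huv k]; ring⟩

lemma exists_H_ne {o : Option K} {c : K} {P : Fin 4 → K}
    (hk : kap o c P ≠ 0) : ∃ x, H o P x ≠ 0 := by
  by_cases hM : m o P = 0
  · have hN : n o P ≠ 0 := by
      intro hN; apply hk; simp [kap, hM, hN]
    refine ⟨![0, 1, 0, 0], ?_⟩
    rw [H, hM]
    rcases o with _ | a
    · simp_all [m, n]
    · simp only [m, n] at hN ⊢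
      simpa [-neg_add_rev] using hN
  · refine ⟨![0, 0, 1, 0], ?_⟩
    rcases o with _ | a
    · simp_all [m, n, H]
    · simp only [H, m, n] at hM ⊢
      simpa using hM

end field

end Pool.Agent.T9h86.Geproci
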