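import Mathlib
import Pool.Agent.T9h86.Geproci.Alg

/-!
The plane quartic and the plane sextic cutting out the projected configuration.
-/

namespace Pool.Agent.T9h86.Geproci

open MvPolynomial

/-- directional derivative of `p` at `y` in direction `z` -/
noncomputable def Dval (y z : Fin 3 → ℂ) (p : MvPolynomial (Fin 3) ℂ) : ℂ :=
  ∑ i, z i * eval y (pderiv i p)

/-- restriction to the line `y + T z` -/
noncomputable def tau (y z : Fin 3 → ℂ) : MvPolynomial (Fin 3) ℂ →ₐ[ℂ] Polynomial ℂ :=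
  aeval (fun i => Polynomial.C (y i) + Polynomial.X * Polynomial.C (z i))

lemma tau_eval (y z : Fin 3 → ℂ) (p : MvPolynomial (Fin 3) ℂ) :
    (tau y z p).eval 0 = eval y p := by
  induction p using MvPolynomial.induction_on with
  | C a => simp [tau]
  | add p q hp hq => simp [hp, hq]
  | mul_X p i hp => simp [hp]; left; simp [tau]

lemma Dval_eq (y z : Fin 3 → ℂ) (p : MvPolynomial (Fin 3) ℂ) :
    Dval y z p = (Polynomial.derivative (tau y z p)).eval 0 := by
  induction p using MvPolynomial.induction_on with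
  | C a => simp [Dval, tau]
  | add p q hp hq =>
    simp only [map_add, Polynomial.eval_add, ← hp, ← hq]
    simp [Dval, mul_add, Finset.sum_add_distrib]
  | mul_X p i hp =>
    simp only [map_mul, Polynomial.derivative_mul, Polynomial.eval_add, Polynomial.eval_mul, ← hp,
      tau_eval]
    have h1 : (Polynomial.derivative (tau y z (X i))).eval 0 = z i := by
      simp [tau]
    rw [h1]
    simp only [Dval, Derivation.leibniz, smul_eq_mul, map_add, map_mul, eval_X, pderiv_X,
      Finset.sum_mul]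
    rw [← sub_eq_zero]
    simp only [mul_add, Finset.sum_add_distrib]
    have h2 : ∑ x : Fin 3, z x * (eval y p * eval y (Pi.single (M := fun _ => MvPolynomial (Fin 3) ℂ) x 1 i)) = eval y p * z i := by
      rw [Finset.sum_eq_single i]
      · simp; ring
      · intro b _ hb
        simp [Pi.single_eq_of_ne hb.symm]
      · simp
    rw [h2]
    have h3 : ∑ x : Fin 3, z x * (y i * eval y (pderiv x p)) = ∑ x : Fin 3, z x * eval y (pderiv x p) * y i := by
      apply Finset.sum_congr rfl; intros; ring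
    rw [h3]; ring

lemma Dval_mul (y z : Fin 3 → ℂ) (p q : MvPolynomial (Fin 3) ℂ) :
    Dval y z (p * q) = Dval y z p * eval y q + eval y p * Dval y z q := by
  simp only [Dval_eq, map_mul, Polynomial.derivative_mul, Polynomial.eval_add, Polynomial.eval_mul,
    tau_eval]

section

variable (σ : (Fin 3 → ℂ) →ₗ[ℂ] (Fin 4 → ℂ))

/-- coordinates of a linear section as linear forms -/
noncomputable def S (i : Fin 4) : MvPolynomial (Fin 3) ℂ :=
  ∑ k, C (σ (Pi.single k 1) i) * X k

lemma sum_sigma (y : Fin 3 → ℂ) (i : Fin 4) : σ y i = ∑ k, σ (Pi.single k 1) i * y k := by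
  have h : y = ∑ k, y k • (Pi.single k (1 : ℂ) : Fin 3 → ℂ) := by
    ext j; simp [Finset.sum_apply, Pi.single_apply]
  conv_lhs => rw [h]
  rw [map_sum, Finset.sum_apply]
  apply Finset.sum_congr rfl
  intro k _
  rw [map_smul]; simp [mul_comm]

lemma eval_S (y : Fin 3 → ℂ) (i : Fin 4) : eval y (S σ i) = σ y i := by
  rw [sum_sigma]; simp [S]

lemma tau_S (y z : Fin 3 → ℂ) (i : Fin 4) :
    tau y z (S σ i) = Polynomial.C (σ y i) + Polynomial.X * Polynomial.C (σ z i) := by
  rw [sum_sigma σ y, sum_sigma σ z]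
  simp only [S, map_sum, map_mul, tau, aeval_X, aeval_C, Polynomial.algebraMap_eq]
  rw [Finset.mul_sum, ← Finset.sum_add_distrib]
  apply Finset.sum_congr rfl
  intro k _; ring

lemma S_hom (i : Fin 4) : (S σ i).IsHomogeneous 1 := by
  apply IsHomogeneous.sum
  intro k _
  have := (isHomogeneous_C (Fin 3) (σ (Pi.single k 1) i)).mul (isHomogeneous_X ℂ k)
  simpa using this

variable (P : Fin 4 → ℂ)

/-- linear form of the plane spanned by `P` and the line `o`, on the plane of projection -/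
noncomputable def HP (o : Option ℂ) : MvPolynomial (Fin 3) ℂ :=
  H (o.map (C : ℂ →+* MvPolynomial (Fin 3) ℂ)) (fun i => C (P i)) (S σ)

/-- cubic form -/
noncomputable def CP (c : ℂ) : MvPolynomial (Fin 3) ℂ :=
  cub (C c) (fun i => C (P i)) (S σ)

lemma eval_HP (o : Option ℂ) (y : Fin 3 → ℂ) : eval y (HP σ P o) = H o P (σ y) := by
  rw [HP, map_H]
  congr 1
  · cases o <;> simp
  · simp
  · ext i; exact eval_S σ y i

lemma eval_CP (c : ℂ) (y : Fin 3 → ℂ) : eval y (CP σ P c) = cub c P (σ y) := by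
  rw [CP, map_cub]
  congr 1
  · simp
  · simp
  · ext i; exact eval_S σ y i

lemma tau_HP (o : Option ℂ) (y z : Fin 3 → ℂ) :
    tau y z (HP σ P o) = Polynomial.C (H o P (σ y)) + Polynomial.X * Polynomial.C (H o P (σ z)) := by
  rw [HP]
  have := map_H ((tau y z : MvPolynomial (Fin 3) ℂ →ₐ[ℂ] Polynomial ℂ) : MvPolynomial (Fin 3) ℂ →+* Polynomial ℂ)
    (o.map (C : ℂ →+* MvPolynomial (Fin 3) ℂ)) (fun i => C (P i)) (S σ)
  simp only [RingHom.coe_coe] at this
  rw [this]
  rw [map_H (Polynomial.C), map_H Polynomial.C, ← H_lin]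
  congr 1
  · cases o <;> simp [tau]
  · funext i; simp [tau]
  · funext i; exact tau_S σ y z i

lemma tau_CP (c : ℂ) (y z : Fin 3 → ℂ) :
    tau y z (CP σ P c) = cub (Polynomial.C c) (fun i => Polynomial.C (P i))
      (fun i => Polynomial.C (σ y i) + Polynomial.X * Polynomial.C (σ z i)) := by
  rw [CP]
  have := map_cub ((tau y z : MvPolynomial (Fin 3) ℂ →ₐ[ℂ] Polynomial ℂ) : MvPolynomial (Fin 3) ℂ →+* Polynomial ℂ)
    (C c) (fun i => C (P i)) (S σ)
  simp only [RingHom.coe_coe] at this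
  rw [this]
  congr 1
  · simp [tau]
  · funext i; simp [tau]
  · funext i; exact tau_S σ y z i

lemma C2 : (C 2 : MvPolynomial (Fin 3) ℂ) = 2 := map_ofNat C 2
lemma C6 : (C 6 : MvPolynomial (Fin 3) ℂ) = 6 := map_ofNat C 6
lemma C8 : (C 8 : MvPolynomial (Fin 3) ℂ) = 8 := map_ofNat C 8
lemma C12 : (C 12 : MvPolynomial (Fin 3) ℂ) = 12 := map_ofNat C 12

lemma m_hom (o : Option ℂ) (x : Fin 4 → MvPolynomial (Fin 3) ℂ) (k : ℕ)
    (hx : ∀ i, (x i).IsHomogeneous k) :
    (m (o.map (C : ℂ →+* MvPolynomial (Fin 3) ℂ)) x).IsHomogeneous k := by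
  rcases o with _ | a
  · exact hx 1
  · simp only [m, Option.map_some]
    refine (hx 1).sub ?_
    simpa using (isHomogeneous_C (Fin 3) a).mul (hx 0)

lemma n_hom (o : Option ℂ) (x : Fin 4 → MvPolynomial (Fin 3) ℂ) (k : ℕ)
    (hx : ∀ i, (x i).IsHomogeneous k) :
    (n (o.map (C : ℂ →+* MvPolynomial (Fin 3) ℂ)) x).IsHomogeneous k := by
  rcases o with _ | a
  · exact (hx 2).neg
  · simp only [n, Option.map_some]
    refine (hx 2).add ?_
    have h := (isHomogeneous_C (Fin 3) (2 * a ^ 2)).mul (hx 3)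
    simpa [C2] using h

lemma HP_hom (o : Option ℂ) : (HP σ P o).IsHomogeneous 1 := by
  have hC : ∀ i, ((fun i => C (P i)) i : MvPolynomial (Fin 3) ℂ).IsHomogeneous 0 :=
    fun i => isHomogeneous_C _ _
  rw [HP, H]
  refine IsHomogeneous.sub ?_ ?_
  · simpa using (m_hom o _ 0 hC).mul (n_hom o _ 1 (S_hom σ))
  · simpa using (n_hom o _ 0 hC).mul (m_hom o _ 1 (S_hom σ))

lemma pl_hom (i j : Fin 4) :
    (pl (fun i => (C (P i) : MvPolynomial (Fin 3) ℂ)) (S σ) i j).IsHomogeneous 1 := by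
  rw [pl]
  refine IsHomogeneous.sub ?_ ?_
  · simpa using (isHomogeneous_C (Fin 3) (P i)).mul (S_hom σ j)
  · simpa using (isHomogeneous_C (Fin 3) (P j)).mul (S_hom σ i)

lemma CP_hom (c : ℂ) : (CP σ P c).IsHomogeneous 3 := by
  rw [CP, cub]
  have hp := pl_hom σ P
  have h3 : ∀ i j, (pl (fun i => (C (P i) : MvPolynomial (Fin 3) ℂ)) (S σ) i j ^ 3).IsHomogeneous 3 :=
    fun i j => by simpa using (hp i j).pow 3
  have hc : ∀ (a : ℂ) (p : MvPolynomial (Fin 3) ℂ), p.IsHomogeneous 3 → (C a * p).IsHomogeneous 3 :=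
    fun a p h => by simpa using (isHomogeneous_C (Fin 3) a).mul h
  refine ((hc c _ ?_).add ?_).sub (h3 2 3)
  · refine IsHomogeneous.add (IsHomogeneous.sub (IsHomogeneous.add (IsHomogeneous.sub
      (IsHomogeneous.add ?_ ?_) ?_) ?_) (h3 0 2)) ?_
    · simpa [C2] using hc 2 _ (h3 1 2)
    · have := hc 12 _ ((hp 1 2).mul ((hp 0 3).pow 2))
      simpa [mul_assoc, C6, C12] using this
    · have := hc 6 _ ((hp 0 3).mul ((hp 1 2).pow 2))
      simpa [mul_assoc, C6, C12] using this
    · have := hc 12 _ (((hp 0 2).mul (hp 1 2)).mul (hp 1 3))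
      simpa [mul_assoc, C6, C12] using this
    · simpa [C8] using hc 8 _ (h3 1 3)
  · have := hc (8 * c ^ 2) _ (h3 0 1)
    simpa [C8] using this

end

end Pool.Agent.T9h86.Geproci
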