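import Mathlib
import Pool.Agent.T9h86.Geproci.Poly
import Pool.Agent.T9h86.Geproci.Defs

/-!
The union of two translates of the `D4` configuration is `(4,6)`-geproci.
-/

namespace Pool.Agent.T9h86.Geproci

open MvPolynomial LinearAlgebra.Projectivization

lemma r_ne (o : Option ℂ) (s : ℂ) : r o 1 s ≠ 0 := fun h => by
  have := congrFun h 0
  rw [r_zero] at this; simp at this

/-- the point with parameter `s` on the line `o` -/
noncomputable def pt (o : Option ℂ) (s : ℂ) : ℙ ℂ (Fin 4 → ℂ) :=
  Projectivization.mk ℂ (r o 1 s) (r_ne o s)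

lemma pt_inj {o o' : Option ℂ} {s s' : ℂ} (ho : IsL o) (ho' : IsL o') (h : pt o s = pt o' s') :
    o = o' ∧ s = s' := by
  rw [pt, pt, Projectivization.mk_eq_mk_iff'] at h
  obtain ⟨t, ht⟩ := h
  have h0 := congrFun ht 0
  simp only [Pi.smul_apply, r_zero, smul_eq_mul, mul_one] at h0
  subst h0
  simp only [one_smul] at ht
  have h1 := congrFun ht 1
  have h3 := congrFun ht 3
  rcases o with _ | a <;> rcases o' with _ | b
  · simp [r] at h3; exact ⟨rfl, h3.symm⟩
  · have := ho' b rfl
    simp [r] at h1; rw [h1] at this; simp at this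
  · have := ho a rfl
    simp [r] at h1; rw [← h1] at this; simp at this
  · simp [r] at h1 h3
    exact ⟨by rw [h1], h3.symm⟩

/-- the set of the 24 points -/
def ZZ (c d : ℂ) : Set (ℙ ℂ (Fin 4 → ℂ)) :=
  {p | ∃ o s, IsL o ∧ (s ^ 3 = c ∨ s ^ 3 = d) ∧ p = pt o s}

lemma exists_omega : ∃ w : ℂ, w ^ 2 + w + 1 = 0 ∧ w ^ 3 = 1 ∧ w ≠ 1 ∧ w ≠ 0 ∧ w ^ 2 ≠ 1 := by
  have h := Complex.isPrimitiveRoot_exp 3 (by norm_num)
  set w := Complex.exp (2 * Real.pi * Complex.I / (3 : ℕ))
  have h3 : w ^ 3 = 1 := h.pow_eq_one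
  have h1 : w ≠ 1 := h.ne_one (by norm_num)
  have h2 : w ^ 2 ≠ 1 := h.pow_ne_one_of_pos_of_lt (by norm_num) (by norm_num)
  refine ⟨w, ?_, h3, h1, ?_, h2⟩
  · have : (w - 1) * (w ^ 2 + w + 1) = 0 := by linear_combination h3
    rcases mul_eq_zero.1 this with h | h
    · exact absurd (sub_eq_zero.1 h) h1
    · exact h
  · rintro h0; rw [h0] at h3; norm_num at h3

lemma cube_iff {w a t : ℂ} (hw : w ^ 2 + w + 1 = 0) :
    a ^ 3 = t ^ 3 ↔ a = t ∨ a = t * w ∨ a = t * w ^ 2 := by
  have h3 : w ^ 3 = 1 := by linear_combination (w - 1) * hw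
  constructor
  · intro h
    have : (a - t) * ((a - t * w) * (a - t * w ^ 2)) = 0 := by
      linear_combination h + (t * a ^ 2 * (- 1) + t ^ 2 * a) * hw + (a * t ^ 2 - t ^ 3) * h3
    rcases mul_eq_zero.1 this with h | h
    · exact Or.inl (sub_eq_zero.1 h)
    · rcases mul_eq_zero.1 h with h | h
      · exact Or.inr (Or.inl (sub_eq_zero.1 h))
      · exact Or.inr (Or.inr (sub_eq_zero.1 h))
  · rintro (rfl | rfl | rfl)
    · rfl
    · rw [mul_pow, h3, mul_one]
    · rw [mul_pow, ← pow_mul, mul_comm 2 3, pow_mul, h3]; simp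

/-- the four lines -/
noncomputable def II (w : ℂ) : Finset (Option ℂ) := {none, some 1, some w, some (w ^ 2)}

lemma mem_II {w : ℂ} (hw : w ^ 2 + w + 1 = 0) (o : Option ℂ) : o ∈ II w ↔ IsL o := by
  rcases o with _ | a
  · simp [II, isL_none]
  · simp only [II, Finset.mem_insert, reduceCtorEq, Finset.mem_singleton, false_or,
      Option.some.injEq]
    have := cube_iff (a := a) (t := 1) hw
    simp only [one_pow, one_mul] at this
    rw [← this]
    constructor
    · intro h; exact isL_some h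
    · intro h; exact h a rfl

lemma card_II {w : ℂ} (h1 : w ≠ 1) (h0 : w ≠ 0) (h2 : w ^ 2 ≠ 1) : (II w).card = 4 := by
  have h3 : w ≠ w ^ 2 := fun h => h1 (by
    apply mul_left_cancel₀ h0; rw [mul_one]; rw [← pow_two]; exact h.symm)
  simp [II, Finset.card_insert_of_notMem, h1.symm, h2.symm, h3]

lemma H_smul (o : Option ℂ) (P x : Fin 4 → ℂ) (t : ℂ) :
    H o P (fun k => t * x k) = t * H o P x := by
  cases o <;> simp only [H, m, n] <;> ring

lemma HP_irr {σ : (Fin 3 → ℂ) →ₗ[ℂ] (Fin 4 → ℂ)} {P : Fin 4 → ℂ} {o : Option ℂ}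
    (h : HP σ P o ≠ 0) : Irreducible (HP σ P o) := by
  apply irreducible_of_totalDegree_eq_one ((HP_hom σ P o).totalDegree h)
  intro x hx
  rw [isUnit_iff_ne_zero]
  rintro rfl
  apply h
  ext i
  simpa using hx i

section main

variable {c d : ℂ} {P : Fin 4 → ℂ} {φ : (Fin 4 → ℂ) →ₗ[ℂ] (Fin 3 → ℂ)}

lemma mem_projImage (y : Fin 3 → ℂ) (hy : y ≠ 0) :
    Projectivization.mk ℂ y hy ∈ projImage φ (ZZ c d) ↔
      ∃ (o : Option ℂ) (s t : ℂ), IsL o ∧ (s ^ 3 = c ∨ s ^ 3 = d) ∧ y = t • φ (r o 1 s) := by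
  constructor
  · rintro ⟨x, hx, h, ⟨o, s, ho, hs, hxs⟩, hq⟩
    rw [pt, Projectivization.mk_eq_mk_iff'] at hxs
    rw [Projectivization.mk_eq_mk_iff'] at hq
    obtain ⟨t, rfl⟩ := hxs
    obtain ⟨t', rfl⟩ := hq
    exact ⟨o, s, t' * t, ho, hs, by rw [map_smul, smul_smul]⟩
  · rintro ⟨o, s, t, ho, hs, rfl⟩
    have hne : φ (r o 1 s) ≠ 0 := fun h => hy (by rw [h, smul_zero])
    refine ⟨r o 1 s, r_ne o s, hne, ⟨o, s, ho, hs, rfl⟩, ?_⟩
    rw [Projectivization.mk_eq_mk_iff']
    exact ⟨t, rfl⟩

/-- **Main computation**: the projection of the 24 points from a point `P` with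
`kap o c P ≠ 0 ≠ kap o d P` is a reduced complete intersection of type `(4,6)`. -/
theorem isReducedCI (hc : c ≠ 0) (hd : d ≠ 0) (hcd : c ≠ d) 
    (hkc : ∀ o, IsL o → kap o c P ≠ 0) (hkd : ∀ o, IsL o → kap o d P ≠ 0)
    (hφ : Function.Surjective φ) (hker : LinearMap.ker φ = Submodule.span ℂ {P}) :
    IsReducedCI 4 6 (projImage φ (ZZ c d)) := by
  classical
  obtain ⟨w, hw, hw3, hw1, hw0, hw2⟩ := exists_omega
  obtain ⟨σ, hσ⟩ := φ.exists_rightInverse_of_surjective (LinearMap.range_eq_top.2 hφ)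
  have hσ' : ∀ y, φ (σ y) = y := fun y => by
    have := congrArg (fun f => f y) hσ; simpa using this
  have hφP : φ P = 0 := by
    have : P ∈ LinearMap.ker φ := by rw [hker]; exact Submodule.mem_span_singleton_self P
    exact this
  have hσφ : ∀ x, ∃ l : ℂ, ∀ k, σ (φ x) k = x k + l * P k := by
    intro x
    have : σ (φ x) - x ∈ LinearMap.ker φ := by
      rw [LinearMap.mem_ker, map_sub, hσ', sub_self]
    rw [hker, Submodule.mem_span_singleton] at this
    obtain ⟨l, hl⟩ := this
    refine ⟨l, fun k => ?_⟩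
    have := congrFun hl k
    simp only [Pi.smul_apply, smul_eq_mul, Pi.sub_apply] at this
    rw [this]; ring
  have hHσφ : ∀ o x, H o P (σ (φ x)) = H o P x := by
    intro o x
    obtain ⟨l, hl⟩ := hσφ x
    rw [show σ (φ x) = fun k => x k + l * P k from funext hl, H_add]
  have hcσφ : ∀ c x, cub c P (σ (φ x)) = cub c P x := by
    intro c x
    obtain ⟨l, hl⟩ := hσφ x
    rw [show σ (φ x) = fun k => x k + l * P k from funext hl, cub_add]
  set F : MvPolynomial (Fin 3) ℂ := ∏ o ∈ II w, HP σ P o with hF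
  set G : MvPolynomial (Fin 3) ℂ := CP σ P c * CP σ P d with hG
  have eF : ∀ y, eval y F = ∏ o ∈ II w, H o P (σ y) := fun y => by
    rw [hF, map_prod]; exact Finset.prod_congr rfl fun o _ => eval_HP σ P o y
  have eG : ∀ y, eval y G = cub c P (σ y) * cub d P (σ y) := fun y => by
    rw [hG, map_mul, eval_CP, eval_CP]
  -- zero locus
  have hzero : ∀ y, y ≠ 0 → ((∃ (o : Option ℂ) (s t : ℂ), IsL o ∧ (s ^ 3 = c ∨ s ^ 3 = d) ∧ y = t • φ (r o 1 s)) ↔
      (eval y F = 0 ∧ eval y G = 0)) := by
    intro y hy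
    rw [eF, eG]
    constructor
    · rintro ⟨o, s, t, ho, hs, rfl⟩
      have e1 : t • φ (r o 1 s) = φ (r o t (t * s)) := by
        rw [← map_smul]; congr 1; funext k
        have := r_smul o t 1 s k
        rw [mul_one] at this
        rw [this]; simp
      rw [e1]
      constructor
      · apply Finset.prod_eq_zero ((mem_II hw o).2 ho)
        rw [hHσφ, H_r]
      · rw [hcσφ, hcσφ, cub_r o ho, cub_r o ho]
        rcases hs with hs | hs
        · have : (t * s) ^ 3 - c * t ^ 3 = 0 := by rw [mul_pow, hs]; ring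
          rw [this]; ring
        · have : (t * s) ^ 3 - d * t ^ 3 = 0 := by rw [mul_pow, hs]; ring
          rw [this]; ring
    · rintro ⟨h1, h2⟩
      rw [Finset.prod_eq_zero_iff] at h1
      obtain ⟨o, ho, h1⟩ := h1
      rw [mem_II hw] at ho
      obtain ⟨l, u, v, huv⟩ := exists_of_H (hkc o ho) h1
      have hσy : σ y = fun k => r o u v k + l * P k := funext huv
      have hφy : y = φ (r o u v) := by
        have : σ y = r o u v + l • P := by rw [hσy]; funext k; simp
        rw [← hσ' y, this, map_add, map_smul, hφP, smul_zero, add_zero]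
      rw [hσy, cub_add, cub_add, cub_r o ho, cub_r o ho] at h2
      have h3 : (v ^ 3 - c * u ^ 3) * (v ^ 3 - d * u ^ 3) = 0 := by
        have hk := mul_ne_zero (hkc o ho) (hkd o ho)
        apply mul_left_cancel₀ hk
        linear_combination h2
      have hu : u ≠ 0 := by
        rintro rfl
        have hv : v = 0 := by
          rcases mul_eq_zero.1 h3 with h | h <;>
          · simp at h; exact h
        subst hv
        apply hy
        rw [hφy]
        have : r o (0 : ℂ) 0 = 0 := by
          funext k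
          have := r_smul o (0 : ℂ) 0 0 k
          simpa using this
        rw [this, map_zero]
      refine ⟨o, v / u, u, ho, ?_, ?_⟩
      · rcases mul_eq_zero.1 h3 with h | h
        · left; rw [div_pow, div_eq_iff (pow_ne_zero 3 hu)]; linear_combination h
        · right; rw [div_pow, div_eq_iff (pow_ne_zero 3 hu)]; linear_combination h
      · rw [hφy, ← map_smul]
        congr 1
        funext k
        have := r_smul o u 1 (v / u) k
        rw [mul_one, mul_div_cancel₀ _ hu] at this
        rw [this]; simp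
  refine ⟨F, G, ?_, ?_, ?_, ?_, ?_⟩
  · have := IsHomogeneous.prod (II w) (fun o => HP σ P o) (fun _ => 1) (fun o _ => HP_hom σ P o)
    simpa [card_II hw1 hw0 hw2] using this
  · exact (CP_hom σ P c).mul (CP_hom σ P d)
  · apply IsRelPrime.prod_left
    intro o ho
    rw [mem_II hw] at ho
    have hne : HP σ P o ≠ 0 := by
      obtain ⟨x, hx⟩ := exists_H_ne (hkc o ho)
      intro h0
      apply hx
      rw [← hHσφ, ← eval_HP σ P o (φ x), h0, map_zero]
    rw [(HP_irr hne).isRelPrime_iff_not_dvd]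
    rintro ⟨q, hq⟩
    have h1 := congrArg (eval (φ (r o 1 0))) hq
    rw [eG, map_mul, eval_HP, hHσφ, H_r, zero_mul, hcσφ, hcσφ, cub_r o ho, cub_r o ho] at h1
    have hk := mul_ne_zero (hkc o ho) (hkd o ho)
    apply mul_ne_zero hk (mul_ne_zero hc hd)
    linear_combination h1
  · intro y hy
    rw [mem_projImage, hzero y hy]
  · intro y hy hmem
    rw [mem_projImage] at hmem
    obtain ⟨o, s, t, ho, hs, rfl⟩ := hmem
    have ht : t ≠ 0 := by rintro rfl; simp at hy
    have hs0 : s ≠ 0 := by
      rintro rfl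
      rcases hs with hs | hs
      · apply hc; rw [← hs]; norm_num
      · apply hd; rw [← hs]; norm_num
    have e1 : t • φ (r o 1 s) = φ (r o t (t * s)) := by
      rw [← map_smul]; congr 1; funext k
      have := r_smul o t 1 s k
      rw [mul_one] at this
      rw [this]; simp
    rw [e1] at hy ⊢
    set y := φ (r o t (t * s)) with hydef
    have hoI := (mem_II hw o).2 ho
    -- derivative of `F`
    have hDF : ∀ z, Dval y z F = H o P (σ z) * eval y (∏ o' ∈ (II w).erase o, HP σ P o') := by
      intro z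
      rw [hF, ← Finset.mul_prod_erase _ _ hoI, Dval_mul, eval_HP, hydef, hHσφ, H_r, zero_mul,
        add_zero]
      congr 1
      rw [Dval_eq, tau_HP]
      simp
    have hrest : eval y (∏ o' ∈ (II w).erase o, HP σ P o') ≠ 0 := by
      rw [map_prod, Finset.prod_ne_zero_iff]
      intro o' ho'
      rw [Finset.mem_erase, mem_II hw] at ho'
      rw [eval_HP, hydef, hHσφ]
      have : r o t (t * s) = fun k => t * r o 1 s k := by
        funext k
        have := r_smul o t 1 s k
        rwa [mul_one] at this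
      rw [this, H_smul]
      refine mul_ne_zero ht (H_ne ho ho'.2 (Ne.symm ho'.1) P s ?_)
      rcases hs with hs | hs
      · rw [hs]; exact hkc _ ho'.2
      · rw [hs]; exact hkd _ ho'.2
    -- derivative of `G` along the line
    have htau : ∀ c : ℂ, tau y (φ (r o 0 1)) (CP σ P c) = Polynomial.C (kap o c P) *
        ((Polynomial.C (t * s) + Polynomial.X) ^ 3 - Polynomial.C c * Polynomial.C t ^ 3) := by
      intro c
      rw [tau_CP]
      obtain ⟨l, hl⟩ := hσφ (r o t (t * s))
      obtain ⟨l', hl'⟩ := hσφ (r o 0 1)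
      have : (fun i => Polynomial.C (σ y i) + Polynomial.X * Polynomial.C (σ (φ (r o 0 1)) i)) =
          fun i => r (o.map Polynomial.C) (Polynomial.C t) (Polynomial.C (t * s) + Polynomial.X) i
            + (Polynomial.C l + Polynomial.X * Polynomial.C l') * Polynomial.C (P i) := by
        funext i
        rw [hydef, hl, hl']
        have h1 := r_add (o.map Polynomial.C) (Polynomial.C t) (Polynomial.C (t * s)) 0
          Polynomial.X i
        have h2 := r_smul (o.map Polynomial.C) (Polynomial.X : Polynomial ℂ) 0 1 i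
        rw [add_zero] at h1
        rw [mul_zero, mul_one] at h2
        have h3 := map_r (Polynomial.C : ℂ →+* Polynomial ℂ) o t (t * s) i
        have h4 := map_r (Polynomial.C : ℂ →+* Polynomial ℂ) o 0 1 i
        rw [map_zero, map_one] at h4
        rw [h1, h2, ← h3, ← h4]
        simp only [map_add, map_mul]
        ring
      rw [this, cub_add, cub_r _ (isL_map _ ho), map_kap]
    have hDG : Dval y (φ (r o 0 1)) G ≠ 0 := by
      have e : Dval y (φ (r o 0 1)) G = (kap o c P * kap o d P) *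
          (3 * (t * s) ^ 2 * ((t * s) ^ 3 - d * t ^ 3) + ((t * s) ^ 3 - c * t ^ 3) *
            (3 * (t * s) ^ 2)) := by
        rw [Dval_eq, hG, map_mul, htau, htau]
        simp [Polynomial.derivative_mul, Polynomial.derivative_pow]
        ring
      rw [e]
      refine mul_ne_zero (mul_ne_zero (hkc o ho) (hkd o ho)) ?_
      rcases hs with hs | hs
      · have : (3 * (t * s) ^ 2 * ((t * s) ^ 3 - d * t ^ 3) + ((t * s) ^ 3 - c * t ^ 3) *
            (3 * (t * s) ^ 2)) = 3 * t ^ 5 * s ^ 2 * (c - d) := by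
          rw [mul_pow t s 3, hs]; ring
        rw [this]
        exact mul_ne_zero (mul_ne_zero (mul_ne_zero (by norm_num) (pow_ne_zero _ ht))
          (pow_ne_zero _ hs0)) (sub_ne_zero.2 hcd)
      · have : (3 * (t * s) ^ 2 * ((t * s) ^ 3 - d * t ^ 3) + ((t * s) ^ 3 - c * t ^ 3) *
            (3 * (t * s) ^ 2)) = 3 * t ^ 5 * s ^ 2 * (d - c) := by
          rw [mul_pow t s 3, hs]; ring
        rw [this]
        exact mul_ne_zero (mul_ne_zero (mul_ne_zero (by norm_num) (pow_ne_zero _ ht))
          (pow_ne_zero _ hs0)) (sub_ne_zero.2 (Ne.symm hcd))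
    rw [LinearIndependent.pair_iff]
    intro α β hαβ
    have hz : ∀ z, α * Dval y z F + β * Dval y z G = 0 := by
      intro z
      simp only [Dval, Finset.mul_sum, ← Finset.sum_add_distrib]
      apply Finset.sum_eq_zero
      intro i _
      have := congrFun hαβ i
      simp only [Pi.add_apply, Pi.smul_apply, smul_eq_mul, Pi.zero_apply] at this
      linear_combination z i * this
    have hβ : β = 0 := by
      have h1 := hz (φ (r o 0 1))
      rw [hDF, hHσφ, H_r, zero_mul, mul_zero, zero_add] at h1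
      exact (mul_eq_zero.1 h1).resolve_right hDG
    refine ⟨?_, hβ⟩
    obtain ⟨x, hx⟩ := exists_H_ne (hkc o ho)
    have h1 := hz (φ x)
    rw [hβ, zero_mul, add_zero, hDF, hHσφ] at h1
    exact (mul_eq_zero.1 h1).resolve_right (mul_ne_zero hx hrest)

end main

end Pool.Agent.T9h86.Geproci
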