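import Mathlib
import Pool.Agent.T9h86.Geproci.Geo

/-!
The 24 points do not lie on a quadric, whereas every grid does.
-/

namespace Pool.Agent.T9h86.Geproci

open MvPolynomial LinearAlgebra.Projectivization

/-- a quadratic form in four variables given by its ten coefficients -/
def qf (q : Fin 10 → ℂ) (x : Fin 4 → ℂ) : ℂ :=
  q 0 * x 0 ^ 2 + q 1 * x 1 ^ 2 + q 2 * x 2 ^ 2 + q 3 * x 3 ^ 2 + q 4 * (x 0 * x 1)
    + q 5 * (x 0 * x 2) + q 6 * (x 0 * x 3) + q 7 * (x 1 * x 2) + q 8 * (x 1 * x 3)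
    + q 9 * (x 2 * x 3)

/-- polar form -/
def pol (q : Fin 10 → ℂ) (x y : Fin 4 → ℂ) : ℂ := qf q (x + y) - qf q x - qf q y

lemma qf_comb (q : Fin 10 → ℂ) (x y : Fin 4 → ℂ) (a b : ℂ) :
    qf q (a • x + b • y) = a ^ 2 * qf q x + b ^ 2 * qf q y + a * b * pol q x y := by
  simp only [pol, qf, Pi.add_apply, Pi.smul_apply, smul_eq_mul]; ring

lemma three_roots {a b e w : ℂ} (hw : w ^ 2 + w + 1 = 0) (h1 : a + b + e = 0)
    (h2 : a + b * w + e * w ^ 2 = 0) (h3 : a + b * w ^ 2 + e * (w ^ 2) ^ 2 = 0) :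
    a = 0 ∧ b = 0 ∧ e = 0 := by
  have h4 : w ^ 3 = 1 := by linear_combination (w - 1) * hw
  refine ⟨?_, ?_, ?_⟩
  · have : 3 * a = 0 := by
      linear_combination h1 + h2 + h3 - b * hw - e * hw * (w ^ 2 - w + 1)
    simpa using this
  · have : 3 * b = 0 := by
      linear_combination h1 + w ^ 2 * h2 + w * h3 - a * hw - e * hw * (w ^ 3 - w ^ 2 + w)
        - (2 * b + e * w ^ 2) * h4 + (e * w * (w - 1) + e) * h4
    simpa using this
  · have : 3 * e = 0 := by
      linear_combination h1 + w * h2 + w ^ 2 * h3 - a * hw - b * hw * (w ^ 2 - w + 1)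
        - (2 * e + e * w ^ 3) * h4
    simpa using this

/-- the 12 points with parameter 1 (the `D4` configuration) do not lie on a quadric -/
lemma no_quadric {w : ℂ} (hw : w ^ 2 + w + 1 = 0) (q : Fin 10 → ℂ)
    (h : ∀ (o : Option ℂ) (s : ℂ), IsL o → s ^ 3 = 1 → qf q (r o 1 s) = 0) : q = 0 := by
  have hw3 : w ^ 3 = 1 := by linear_combination (w - 1) * hw
  have hw6 : (w ^ 2) ^ 3 = 1 := by rw [← pow_mul, mul_comm 2 3, pow_mul, hw3, one_pow]
  have hn : ∀ s : ℂ, s ^ 3 = 1 → q 0 + q 6 * s + q 3 * s ^ 2 = 0 := by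
    intro s hs
    have := h none s isL_none hs
    simp only [qf, r] at this
    simp only [Matrix.cons_val_zero, Matrix.cons_val_one, Matrix.cons_val] at this
    linear_combination this
  have ha : ∀ a s : ℂ, a ^ 3 = 1 → s ^ 3 = 1 →
      (q 0 + q 1 * a ^ 2 + q 4 * a) + (2 * q 5 * a ^ 2 - q 6 + 2 * q 7 - q 8 * a) * s
        + (4 * q 2 * a + q 3 - 2 * q 9 * a ^ 2) * s ^ 2 = 0 := by
    intro a s ha hs
    have := h (some a) s (isL_some ha) hs
    simp only [qf, r] at this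
    simp only [Matrix.cons_val_zero, Matrix.cons_val_one, Matrix.cons_val] at this
    linear_combination this - (4 * q 2 * a * s ^ 2 + 2 * q 7 * s) * ha
  obtain ⟨h0, h6, h3⟩ := three_roots hw (by simpa using hn 1 (by norm_num)) (hn w hw3) (hn _ hw6)
  have hb : ∀ a : ℂ, a ^ 3 = 1 → (q 0 + q 1 * a ^ 2 + q 4 * a) = 0 ∧
      (2 * q 5 * a ^ 2 - q 6 + 2 * q 7 - q 8 * a) = 0 ∧
      (4 * q 2 * a + q 3 - 2 * q 9 * a ^ 2) = 0 := fun a haa =>
    three_roots hw (by simpa using ha a 1 haa (by norm_num)) (ha a w haa hw3) (ha a _ haa hw6)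
  have b1 := hb 1 (by norm_num)
  have b2 := hb w hw3
  have b3 := hb (w ^ 2) hw6
  obtain ⟨-, h4, h1⟩ := three_roots (a := q 0) (b := q 4) (e := q 1) hw
    (by linear_combination b1.1) (by linear_combination b2.1) (by linear_combination b3.1)
  obtain ⟨h7, h8, h5⟩ := three_roots (a := 2 * q 7 - q 6) (b := - q 8) (e := 2 * q 5) hw
    (by linear_combination b1.2.1) (by linear_combination b2.2.1) (by linear_combination b3.2.1)
  obtain ⟨-, h2, h9⟩ := three_roots (a := q 3) (b := 4 * q 2) (e := - 2 * q 9) hw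
    (by linear_combination b1.2.2) (by linear_combination b2.2.2) (by linear_combination b3.2.2)
  have h7' : q 7 = 0 := by rw [h6] at h7; simpa using h7
  have h8' : q 8 = 0 := by simpa using h8
  have h5' : q 5 = 0 := by simpa using h5
  have h2' : q 2 = 0 := by simpa using h2
  have h9' : q 9 = 0 := by simpa using h9
  funext i
  fin_cases i <;> simp [h0, h1, h2', h3, h4, h5', h6, h7', h8', h9']

lemma span_pair {U : Submodule ℂ (Fin 4 → ℂ)} (hU : Module.finrank ℂ U = 2) {x y : Fin 4 → ℂ}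
    (hx : x ∈ U) (hy : y ∈ U) (hxy : LinearIndependent ℂ ![x, y]) :
    ∀ u ∈ U, ∃ a b : ℂ, u = a • x + b • y := by
  have h1 : Submodule.span ℂ (Set.range ![x, y]) = U := by
    apply Submodule.eq_of_le_of_finrank_eq
    · rw [Submodule.span_le]
      rintro _ ⟨i, rfl⟩
      fin_cases i
      · exact hx
      · exact hy
    · rw [finrank_span_eq_card hxy, hU]; rfl
  intro u hu
  rw [← h1] at hu
  have h2 : Set.range ![x, y] = {x, y} := by simp [Set.pair_comm]
  rw [h2, Submodule.mem_span_pair] at hu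
  obtain ⟨a, b, h⟩ := hu
  exact ⟨a, b, h.symm⟩

/-- a quadric vanishing at three points of a line vanishes on the line -/
lemma vanish_line {q : Fin 10 → ℂ} {A B C M : Submodule ℂ (Fin 4 → ℂ)}
    (hAB : A ⊓ B = ⊥) (hAC : A ⊓ C = ⊥) (hBC : B ⊓ C = ⊥) (hM : Module.finrank ℂ M = 2)
    {x y z : Fin 4 → ℂ} (hx : x ≠ 0) (hy : y ≠ 0) (hz : z ≠ 0) (hxA : x ∈ A) (hyB : y ∈ B)
    (hzC : z ∈ C) (hxM : x ∈ M) (hyM : y ∈ M) (hzM : z ∈ M) (qx : qf q x = 0) (qy : qf q y = 0)
    (qz : qf q z = 0) : ∀ u ∈ M, qf q u = 0 := by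
  have hli : LinearIndependent ℂ ![x, y] := by
    rw [LinearIndependent.pair_iff]
    intro s t hst
    have h1 : s • x = 0 := by
      have : s • x ∈ A ⊓ B := by
        refine ⟨A.smul_mem _ hxA, ?_⟩
        have : s • x = -(t • y) := eq_neg_of_add_eq_zero_left hst
        rw [this]
        exact B.neg_mem (B.smul_mem _ hyB)
      rwa [hAB, Submodule.mem_bot] at this
    have hs : s = 0 := (smul_eq_zero.1 h1).resolve_right hx
    rw [h1, zero_add] at hst
    exact ⟨hs, (smul_eq_zero.1 hst).resolve_right hy⟩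
  have hsp := span_pair hM hxM hyM hli
  obtain ⟨a, b, hab⟩ := hsp z hzM
  have ha : a ≠ 0 := by
    rintro rfl
    apply hz
    have : z ∈ B ⊓ C := ⟨by rw [hab, zero_smul, zero_add]; exact B.smul_mem _ hyB, hzC⟩
    rwa [hBC, Submodule.mem_bot] at this
  have hb : b ≠ 0 := by
    rintro rfl
    apply hz
    have : z ∈ A ⊓ C := ⟨by rw [hab, zero_smul, add_zero]; exact A.smul_mem _ hxA, hzC⟩
    rwa [hAC, Submodule.mem_bot] at this
  have hp : pol q x y = 0 := by
    have := qf_comb q x y a b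
    rw [← hab, qx, qy, qz] at this
    have h2 : a * b * pol q x y = 0 := by linear_combination -this
    exact (mul_eq_zero.1 h2).resolve_left (mul_ne_zero ha hb)
  intro u hu
  obtain ⟨a', b', rfl⟩ := hsp u hu
  rw [qf_comb, qx, qy, hp]; ring

/-- there is a quadric through three lines -/
lemma exists_quadric {L : Fin 3 → Submodule ℂ (Fin 4 → ℂ)}
    (hL : ∀ i, Module.finrank ℂ (L i) = 2) :
    ∃ q : Fin 10 → ℂ, q ≠ 0 ∧ ∀ i, ∀ u ∈ L i, qf q u = 0 := by
  have hbas : ∀ i, ∃ x y : Fin 4 → ℂ, x ∈ L i ∧ y ∈ L i ∧ LinearIndependent ℂ ![x, y] := by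
    intro i
    let b := Module.finBasisOfFinrankEq ℂ (L i) (hL i)
    refine ⟨b 0, b 1, (b 0).2, (b 1).2, ?_⟩
    have h := b.linearIndependent.map' (L i).subtype (Submodule.ker_subtype _)
    have e : ![((b 0 : L i) : Fin 4 → ℂ), b 1] = (L i).subtype ∘ b := by
      funext k
      fin_cases k <;> rfl
    rw [e]
    exact h
  choose x y hx hy hxy using hbas
  let pts : Fin 3 × Fin 3 → (Fin 4 → ℂ) := fun k => ![x k.1, y k.1, x k.1 + y k.1] k.2
  let T : (Fin 10 → ℂ) →ₗ[ℂ] (Fin 3 × Fin 3 → ℂ) :=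
    { toFun := fun q k => qf q (pts k)
      map_add' := fun q q' => by funext k; simp only [qf, Pi.add_apply]; ring
      map_smul' := fun a q => by
        funext k; simp only [qf, Pi.smul_apply, smul_eq_mul, RingHom.id_apply]; ring }
  have hker : LinearMap.ker T ≠ ⊥ := by
    apply T.ker_ne_bot_of_finrank_lt
    simp
  obtain ⟨q, hq, hq0⟩ := Submodule.exists_mem_ne_zero_of_ne_bot hker
  refine ⟨q, hq0, fun i u hu => ?_⟩
  rw [LinearMap.mem_ker] at hq
  have e : ∀ k, qf q (pts k) = 0 := fun k => congrFun hq k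
  have e0 : qf q (x i) = 0 := e (i, 0)
  have e1 : qf q (y i) = 0 := e (i, 1)
  have e2 : qf q (x i + y i) = 0 := e (i, 2)
  obtain ⟨a, b, rfl⟩ := span_pair (hL i) (hx i) (hy i) (hxy i) u hu
  rw [qf_comb, pol, e0, e1, e2]; ring

/-- every grid lies on a quadric -/
lemma grid_quadric {a b : ℕ} {Z : Set (ℙ ℂ (Fin 4 → ℂ))} (hZ : IsGrid a b Z) :
    ∃ q : Fin 10 → ℂ, q ≠ 0 ∧ ∀ (x : Fin 4 → ℂ) (hx : x ≠ 0),
      Projectivization.mk ℂ x hx ∈ Z → qf q x = 0 := by
  obtain ⟨L, M, hL, hM, hLL, -, hLM, rfl⟩ := hZ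
  by_cases h3 : ∃ i j k : Fin a, i ≠ j ∧ i ≠ k ∧ j ≠ k
  · obtain ⟨i, j, k, hij, hik, hjk⟩ := h3
    obtain ⟨q, hq0, hq⟩ := exists_quadric (L := ![L i, L j, L k])
      (by intro t; fin_cases t; exacts [hL i, hL j, hL k])
    refine ⟨q, hq0, fun x hx hmem => ?_⟩
    obtain ⟨t, l, htl⟩ := hmem
    have hxm : x ∈ L t ⊓ M l := by
      rw [← htl, Projectivization.submodule_mk]; exact Submodule.mem_span_singleton_self x
    have hex : ∀ t, ∃ z : Fin 4 → ℂ, z ≠ 0 ∧ z ∈ L t ∧ z ∈ M l := by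
      intro t
      have : (L t ⊓ M l) ≠ ⊥ := by
        intro h0
        have h1 := hLM t l
        rw [h0, finrank_bot] at h1
        exact absurd h1 (by norm_num)
      obtain ⟨z, hz, hz0⟩ := Submodule.exists_mem_ne_zero_of_ne_bot this
      exact ⟨z, hz0, hz.1, hz.2⟩
    obtain ⟨z1, hz1, hz1L, hz1M⟩ := hex i
    obtain ⟨z2, hz2, hz2L, hz2M⟩ := hex j
    obtain ⟨z3, hz3, hz3L, hz3M⟩ := hex k
    exact vanish_line (hLL i j hij) (hLL i k hik) (hLL j k hjk) (hM l) hz1 hz2 hz3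
      hz1L hz2L hz3L hz1M hz2M hz3M (hq 0 _ hz1L) (hq 1 _ hz2L) (hq 2 _ hz3L) x hxm.2
  · by_cases h1 : Nonempty (Fin a)
    · obtain ⟨i⟩ := h1
      have : ∃ j, ∀ k, k = i ∨ k = j := by
        by_cases h2 : ∃ j, j ≠ i
        · obtain ⟨j, hj⟩ := h2
          refine ⟨j, fun k => ?_⟩
          by_contra hk
          push Not at hk
          exact h3 ⟨i, j, k, Ne.symm hj, Ne.symm hk.1, Ne.symm hk.2⟩
        · push Not at h2
          exact ⟨i, fun k => Or.inl (h2 k)⟩
      obtain ⟨j, hj⟩ := this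
      obtain ⟨q, hq0, hq⟩ := exists_quadric (L := ![L i, L j, L j])
        (by intro t; fin_cases t; exacts [hL i, hL j, hL j])
      refine ⟨q, hq0, fun x hx hmem => ?_⟩
      obtain ⟨t, l, htl⟩ := hmem
      have hxm : x ∈ L t ⊓ M l := by
        rw [← htl, Projectivization.submodule_mk]; exact Submodule.mem_span_singleton_self x
      rcases hj t with rfl | rfl
      · exact hq 0 x hxm.1
      · exact hq 1 x hxm.1
    · refine ⟨fun _ => 1, fun h => by simpa using congrFun h 0, fun x hx hmem => ?_⟩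
      obtain ⟨t, l, htl⟩ := hmem
      exact absurd ⟨t⟩ h1

theorem not_grid (d : ℂ) (a b : ℕ) : ¬ IsGrid a b (ZZ 1 d) := by
  intro h
  obtain ⟨w, hw, -⟩ := exists_omega
  obtain ⟨q, hq0, hq⟩ := grid_quadric h
  exact hq0 (no_quadric hw q fun o s ho hs => hq _ (r_ne o s) ⟨o, s, ho, Or.inl hs, rfl⟩)

theorem not_degenerate (d : ℂ) : ¬ IsDegenerate (ZZ 1 d) := by
  rintro ⟨H, hH, hmem⟩
  obtain ⟨w, hw, hw3, hw1, hw0, hw2⟩ := exists_omega
  have hin : ∀ o s, IsL o → s ^ 3 = 1 → r o 1 s ∈ H := by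
    intro o s ho hs
    have := hmem (pt o s) ⟨o, s, ho, Or.inl hs, rfl⟩
    rw [pt, Projectivization.submodule_mk] at this
    exact this (Submodule.mem_span_singleton_self _)
  have hw1' : w - 1 ≠ 0 := sub_ne_zero.2 hw1
  have htop : H = ⊤ := by
    rw [Submodule.eq_top_iff']
    intro x
    have h1 := hin none 1 isL_none (by norm_num)
    have h2 := hin none w isL_none hw3
    have h3 := hin (some 1) 1 (isL_some (by norm_num)) (by norm_num)
    have h4 := hin (some 1) w (isL_some (by norm_num)) hw3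
    have key : x = (x 0 - x 1 - (x 3 + x 2 / 2 - x 0 + x 1) / (w - 1)) • r none 1 1
        + ((x 3 + x 2 / 2 - x 0 + x 1) / (w - 1)) • r none 1 w
        + (x 1 - (x 2 / 2 - x 1) / (w - 1)) • r (some 1) 1 1
        + ((x 2 / 2 - x 1) / (w - 1)) • r (some 1) 1 w := by
      funext k
      fin_cases k <;> simp [r] <;> field_simp <;> ring
    rw [key]
    exact H.add_mem (H.add_mem (H.add_mem (H.smul_mem _ h1) (H.smul_mem _ h2))
      (H.smul_mem _ h3)) (H.smul_mem _ h4)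
  rw [htop, finrank_top] at hH
  simp at hH

end Pool.Agent.T9h86.Geproci
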