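import Mathlib
import Pool.Agent.T9h86.Geproci.Grid

/-!
The sets `ZZ 1 (t³)` are nontrivial `(4,6)`-geproci, and their projective equivalence classes are
uncountably many.
-/

namespace Pool.Agent.T9h86.Geproci

open MvPolynomial LinearAlgebra.Projectivization

/-- cube roots of `p³` -/
noncomputable def roots (w p : ℂ) : Finset ℂ := {p, p * w, p * w ^ 2}

lemma mem_roots {w : ℂ} (hw : w ^ 2 + w + 1 = 0) (p s : ℂ) : s ∈ roots w p ↔ s ^ 3 = p ^ 3 := by
  rw [cube_iff hw]; simp [roots]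

lemma card_roots {w p : ℂ} (hp : p ≠ 0) (h1 : w ≠ 1) (h0 : w ≠ 0) (h2 : w ^ 2 ≠ 1) :
    (roots w p).card = 3 := by
  have e1 : p ≠ p * w := fun h => h1 (mul_left_cancel₀ hp (by rw [mul_one]; exact h.symm))
  have e2 : p ≠ p * w ^ 2 := fun h => h2 (mul_left_cancel₀ hp (by rw [mul_one]; exact h.symm))
  have e3 : p * w ≠ p * w ^ 2 := fun h => h1 (by
    apply mul_left_cancel₀ (mul_ne_zero hp h0)
    rw [mul_one]
    linear_combination -h)
  rw [roots, Finset.card_insert_of_notMem, Finset.card_insert_of_notMem, Finset.card_singleton]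
  · simpa using e3
  · simp only [Finset.mem_insert, Finset.mem_singleton, not_or]; exact ⟨e1, e2⟩

lemma ZZ_eq {w : ℂ} (hw : w ^ 2 + w + 1 = 0) (p t : ℂ) :
    ZZ (p ^ 3) (t ^ 3) = (fun os : Option ℂ × ℂ => pt os.1 os.2) ''
      (((II w) ×ˢ (roots w p ∪ roots w t) : Finset (Option ℂ × ℂ)) : Set (Option ℂ × ℂ)) := by
  ext q
  constructor
  · rintro ⟨o, s, ho, hs, rfl⟩
    refine ⟨(o, s), ?_, rfl⟩
    simp only [Finset.coe_product, Set.mem_prod, Finset.mem_coe, Finset.mem_union, mem_II hw,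
      mem_roots hw]
    exact ⟨ho, hs⟩
  · rintro ⟨⟨o, s⟩, h, rfl⟩
    simp only [Finset.coe_product, Set.mem_prod, Finset.mem_coe, Finset.mem_union, mem_II hw,
      mem_roots hw] at h
    exact ⟨o, s, h.1, h.2, rfl⟩

lemma ZZ_finite (p t : ℂ) : (ZZ (p ^ 3) (t ^ 3)).Finite := by
  obtain ⟨w, hw, -⟩ := exists_omega
  rw [ZZ_eq hw]
  exact (Finset.finite_toSet _).image _

lemma ZZ_ncard {p t : ℂ} (hp : p ≠ 0) (ht : t ≠ 0) (hpt : p ^ 3 ≠ t ^ 3) :
    (ZZ (p ^ 3) (t ^ 3)).ncard = 4 * 6 := by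
  classical
  obtain ⟨w, hw, hw3, hw1, hw0, hw2⟩ := exists_omega
  rw [ZZ_eq hw, Set.InjOn.ncard_image, Set.ncard_coe_finset, Finset.card_product,
    card_II hw1 hw0 hw2, Finset.card_union_of_disjoint, card_roots hp hw1 hw0 hw2,
    card_roots ht hw1 hw0 hw2]
  · rw [Finset.disjoint_left]
    intro s h1 h2
    rw [mem_roots hw] at h1 h2
    exact hpt (h1.symm.trans h2)
  · rintro ⟨o, s⟩ h ⟨o', s'⟩ h' he
    simp only [Finset.coe_product, Set.mem_prod, Finset.mem_coe, Finset.mem_union, mem_II hw,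
      mem_roots hw] at h h'
    obtain ⟨rfl, rfl⟩ := pt_inj h.1 h'.1 he
    rfl

/-- the polynomial `P ↦ kap o c P` -/
noncomputable def KP (o : Option ℂ) (c : ℂ) : MvPolynomial (Fin 4) ℂ :=
  kap (o.map (C : ℂ →+* MvPolynomial (Fin 4) ℂ)) (C c) X

lemma eval_KP (o : Option ℂ) (c : ℂ) (P : Fin 4 → ℂ) : eval P (KP o c) = kap o c P := by
  rw [KP, map_kap]
  congr 1
  · cases o <;> simp
  · simp
  · ext i; simp

lemma KP_ne (o : Option ℂ) (c : ℂ) : KP o c ≠ 0 := by
  intro h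
  have := congrArg (eval ![0, 0, 1, 0]) h
  rw [eval_KP, map_zero] at this
  rcases o with _ | a
  · simp [kap, m, n] at this
  · simp [kap, m, n] at this

theorem isGeproci {p t : ℂ} (hp : p ≠ 0) (ht : t ≠ 0) (hpt : p ^ 3 ≠ t ^ 3) :
    IsGeproci 4 6 (ZZ (p ^ 3) (t ^ 3)) := by
  classical
  obtain ⟨w, hw, hw3, hw1, hw0, hw2⟩ := exists_omega
  refine ⟨ZZ_finite p t, ZZ_ncard hp ht hpt, ∏ o ∈ II w, (KP o (p ^ 3) * KP o (t ^ 3)), ?_, ?_⟩
  · rw [Finset.prod_ne_zero_iff]
    intro o _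
    exact mul_ne_zero (KP_ne _ _) (KP_ne _ _)
  · intro P _ hΦ φ hφ hker
    rw [map_prod, Finset.prod_ne_zero_iff] at hΦ
    have h : ∀ o, IsL o → kap o (p ^ 3) P ≠ 0 ∧ kap o (t ^ 3) P ≠ 0 := by
      intro o ho
      have := hΦ o ((mem_II hw o).2 ho)
      rw [map_mul, eval_KP, eval_KP] at this
      exact ⟨left_ne_zero_of_mul this, right_ne_zero_of_mul this⟩
    exact isReducedCI (pow_ne_zero 3 hp) (pow_ne_zero 3 ht) hpt (fun o ho => (h o ho).1)
      (fun o ho => (h o ho).2) hφ hker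

theorem isNontrivial {t : ℂ} (ht : t ≠ 0) (ht1 : t ^ 3 ≠ 1) :
    IsNontrivialGeproci 4 6 (ZZ 1 (t ^ 3)) := by
  refine ⟨?_, not_degenerate _, fun c d => not_grid _ c d⟩
  have := isGeproci (p := 1) (t := t) one_ne_zero ht (by rw [one_pow]; exact Ne.symm ht1)
  rwa [one_pow] at this

/-- the cross ratios of collinear quadruples of points of `Z` -/
def CR (Z : Set (ℙ ℂ (Fin 4 → ℂ))) : Set ℂ :=
  {l | ∃ (u v : Fin 4 → ℂ) (hu : u ≠ 0) (hv : v ≠ 0) (huv : u + v ≠ 0) (hl : u + l • v ≠ 0),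
    LinearIndependent ℂ ![u, v] ∧ Projectivization.mk ℂ u hu ∈ Z ∧
    Projectivization.mk ℂ v hv ∈ Z ∧ Projectivization.mk ℂ (u + v) huv ∈ Z ∧
    Projectivization.mk ℂ (u + l • v) hl ∈ Z}

lemma CR_mono_equiv {Z Z' : Set (ℙ ℂ (Fin 4 → ℂ))} (h : ProjEquiv Z Z') : CR Z ⊆ CR Z' := by
  obtain ⟨g, rfl⟩ := h
  rintro l ⟨u, v, hu, hv, huv, hl, hli, mu, mv, muv, ml⟩
  have gne : ∀ x : Fin 4 → ℂ, x ≠ 0 → g x ≠ 0 := fun x hx h => hx (by simpa using h)
  refine ⟨g u, g v, gne u hu, gne v hv, ?_, ?_, ?_, ⟨_, mu, ?_⟩, ⟨_, mv, ?_⟩, ⟨_, muv, ?_⟩,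
    ⟨_, ml, ?_⟩⟩
  · rw [← map_add]; exact gne _ huv
  · rw [← map_smul, ← map_add]; exact gne _ hl
  · rw [LinearIndependent.pair_iff] at hli ⊢
    intro s t hst
    apply hli
    apply g.injective
    rw [map_add, map_smul, map_smul, hst, map_zero]
  · rw [Projectivization.map_mk]; rfl
  · rw [Projectivization.map_mk]; rfl
  · rw [Projectivization.map_mk]; congr 1; simp
  · rw [Projectivization.map_mk]; congr 1; simp

/-- values of the cross ratio at a given quadruple of points -/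
def CR4 (p₁ p₂ p₃ p₄ : ℙ ℂ (Fin 4 → ℂ)) : Set ℂ :=
  {l | ∃ (u v : Fin 4 → ℂ) (hu : u ≠ 0) (hv : v ≠ 0) (huv : u + v ≠ 0) (hl : u + l • v ≠ 0),
    LinearIndependent ℂ ![u, v] ∧ Projectivization.mk ℂ u hu = p₁ ∧
    Projectivization.mk ℂ v hv = p₂ ∧ Projectivization.mk ℂ (u + v) huv = p₃ ∧
    Projectivization.mk ℂ (u + l • v) hl = p₄}

lemma CR4_subsingleton (p₁ p₂ p₃ p₄ : ℙ ℂ (Fin 4 → ℂ)) : (CR4 p₁ p₂ p₃ p₄).Subsingleton := by
  rintro l ⟨u, v, hu, hv, huv, hl, hli, m1, m2, m3, m4⟩ l' ⟨u', v', hu', hv', huv', hl', hli',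
    m1', m2', m3', m4'⟩
  have e1 := m1.trans m1'.symm
  have e2 := m2.trans m2'.symm
  have e3 := m3.trans m3'.symm
  have e4 := m4.trans m4'.symm
  rw [Projectivization.mk_eq_mk_iff'] at e1 e2 e3 e4
  obtain ⟨a, ha⟩ := e1
  obtain ⟨b, hb⟩ := e2
  obtain ⟨e, he⟩ := e3
  obtain ⟨f, hf⟩ := e4
  rw [LinearIndependent.pair_iff] at hli'
  have h1 := hli' (a - e) (b - e) (by
    rw [← ha, ← hb] at he
    have : (a - e) • u' + (b - e) • v' = (a • u' + b • v') - e • (u' + v') := by module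
    rw [this, he, sub_self])
  have hae : a = e := sub_eq_zero.1 h1.1
  have hbe : b = e := sub_eq_zero.1 h1.2
  subst hae
  subst hbe
  have h2 := hli' (b - f) (l * b - f * l') (by
    rw [← ha, ← hb] at hf
    have : (b - f) • u' + (l * b - f * l') • v' = (b • u' + l • (b • v')) - f • (u' + l' • v') := by
      module
    rw [this, hf, sub_self])
  have hbf : b = f := sub_eq_zero.1 h2.1
  subst hbf
  have hb0 : b ≠ 0 := by
    rintro rfl
    exact hu (by rw [← ha, zero_smul])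
  have h3 := h2.2
  have : b * (l - l') = 0 := by linear_combination h3
  exact sub_eq_zero.1 ((mul_eq_zero.1 this).resolve_left hb0)

lemma CR_finite {Z : Set (ℙ ℂ (Fin 4 → ℂ))} (hZ : Z.Finite) : (CR Z).Finite := by
  have h : CR Z ⊆ ⋃ p₁ ∈ Z, ⋃ p₂ ∈ Z, ⋃ p₃ ∈ Z, ⋃ p₄ ∈ Z, CR4 p₁ p₂ p₃ p₄ := by
    rintro l ⟨u, v, hu, hv, huv, hl, hli, m1, m2, m3, m4⟩
    simp only [Set.mem_iUnion]
    exact ⟨_, m1, _, m2, _, m3, _, m4, u, v, hu, hv, huv, hl, hli, rfl, rfl, rfl, rfl⟩
  refine Set.Finite.subset ?_ h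
  exact hZ.biUnion fun _ _ => hZ.biUnion fun _ _ => hZ.biUnion fun _ _ => hZ.biUnion fun _ _ =>
    (CR4_subsingleton _ _ _ _).finite

/-- the cross ratio of the points with parameters `1, w, w², t` on the first line -/
lemma mem_CR {w t : ℂ} (hw : w ^ 2 + w + 1 = 0) (htw : t ≠ w) :
    (t - 1) / (w ^ 2 - t * w) ∈ CR (ZZ 1 (t ^ 3)) := by
  have hw3 : w ^ 3 = 1 := by linear_combination (w - 1) * hw
  have hw0 : w ≠ 0 := by rintro rfl; norm_num at hw3
  have hw1 : w ≠ 1 := by rintro rfl; norm_num at hw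
  have hden : w ^ 2 - t * w ≠ 0 := by
    intro h
    apply htw
    apply mul_right_cancel₀ hw0
    linear_combination -h
  set l := (t - 1) / (w ^ 2 - t * w) with hl
  have hl' : l * (w ^ 2 - t * w) = t - 1 := div_mul_cancel₀ _ hden
  have hmem : ∀ s, s ^ 3 = 1 ∨ s ^ 3 = t ^ 3 → pt none s ∈ ZZ 1 (t ^ 3) :=
    fun s hs => ⟨none, s, isL_none, hs, rfl⟩
  -- the vectors
  have e1 : (r none 1 1 : Fin 4 → ℂ) = r none 1 1 := rfl
  have hv : w • (r none 1 w : Fin 4 → ℂ) ≠ 0 := smul_ne_zero hw0 (r_ne _ _)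
  have huv : (r none 1 1 : Fin 4 → ℂ) + w • r none 1 w = (-w ^ 2) • r none 1 (w ^ 2) := by
    funext k
    fin_cases k
    · simp [r]; linear_combination hw
    · simp [r]
    · simp [r]
    · simp [r]; linear_combination hw + w * hw3
  have hlw : 1 + l * w ≠ 0 := by
    intro h
    have h2 : (1 + l * w) * (w ^ 2 - t * w) = 0 := by rw [h, zero_mul]
    have h3 : w ^ 2 - w = 0 := by linear_combination h2 - w * hl'
    apply hw1
    apply mul_left_cancel₀ hw0
    linear_combination h3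
  have hul : (r none 1 1 : Fin 4 → ℂ) + l • (w • r none 1 w) = (1 + l * w) • r none 1 t := by
    funext k
    fin_cases k
    · simp [r]
    · simp [r]
    · simp [r]
    · simp [r]; linear_combination hl'
  refine ⟨r none 1 1, w • r none 1 w, r_ne _ _, hv, ?_, ?_, ?_, ?_, ?_, ?_, ?_⟩
  · rw [huv]; exact smul_ne_zero (neg_ne_zero.2 (pow_ne_zero 2 hw0)) (r_ne _ _)
  · rw [hul]; exact smul_ne_zero hlw (r_ne _ _)
  · rw [LinearIndependent.pair_iff]
    intro a b hab
    have h0 := congrFun hab 0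
    have h3 := congrFun hab 3
    simp [r] at h0 h3
    have hb : b * (w * (w - 1)) = 0 := by linear_combination h3 - h0
    have hb0 : b = 0 := (mul_eq_zero.1 hb).resolve_right (mul_ne_zero hw0 (sub_ne_zero.2 hw1))
    rw [hb0] at h0
    exact ⟨by simpa using h0, hb0⟩
  · exact hmem 1 (Or.inl (by norm_num))
  · have := hmem w (Or.inl hw3)
    convert this using 1
    rw [pt, Projectivization.mk_eq_mk_iff']
    exact ⟨w, rfl⟩
  · have := hmem (w ^ 2) (Or.inl (by rw [← pow_mul, mul_comm 2 3, pow_mul, hw3, one_pow]))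
    convert this using 1
    rw [pt, Projectivization.mk_eq_mk_iff']
    exact ⟨-w ^ 2, huv.symm⟩
  · have := hmem t (Or.inr rfl)
    convert this using 1
    rw [pt, Projectivization.mk_eq_mk_iff']
    exact ⟨1 + l * w, hul.symm⟩

/-- There are uncountably many projective equivalence classes of nontrivial `(4,6)`-geproci
sets. -/
theorem uncountable_classes : Uncountable (Quotient (geprociSetoid 4 6)) := by
  obtain ⟨w, hw, hw3, hw1, hw0, hw2⟩ := exists_omega
  -- the parameters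
  let S : Set ℂ := {t | t ≠ 0 ∧ t ^ 3 ≠ 1}
  have hSc : ¬ S.Countable := by
    intro h
    have h2 : (Sᶜ).Countable := by
      apply Set.Finite.countable
      have : Sᶜ ⊆ insert 0 (roots w 1 : Set ℂ) := by
        intro t ht
        simp only [S, Set.mem_compl_iff, Set.mem_ofPred_eq, not_and, not_not] at ht
        by_cases h0 : t = 0
        · left; exact h0
        · right
          rw [Finset.mem_coe, mem_roots hw, one_pow]
          exact ht h0
      exact Set.Finite.subset ((Finset.finite_toSet _).insert 0) this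
    have h3 : (Set.univ : Set ℂ).Countable := by
      rw [← Set.union_compl_self S]
      exact h.union h2
    exact not_countable_complex h3
  let f : S → Quotient (geprociSetoid 4 6) := fun t =>
    Quotient.mk _ ⟨ZZ 1 (t.1 ^ 3), isNontrivial t.2.1 t.2.2⟩
  have hfib : ∀ q, (f ⁻¹' {q}).Countable := by
    intro q
    apply Set.Finite.countable
    by_cases hq : ∃ t0, f t0 = q
    · obtain ⟨t0, rfl⟩ := hq
      have hfin : (CR (ZZ 1 (t0.1 ^ 3))).Finite := by
        have := ZZ_finite 1 t0.1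
        rw [one_pow] at this
        exact CR_finite this
      refine Set.Finite.of_finite_image (f := fun t : S => (t.1 - 1) / (w ^ 2 - t.1 * w))
        (hfin.subset ?_) ?_
      · rintro _ ⟨t, ht, rfl⟩
        have h1 : f t = f t0 := ht
        have h2 : ProjEquiv (ZZ 1 (t.1 ^ 3)) (ZZ 1 (t0.1 ^ 3)) := Quotient.exact h1
        refine CR_mono_equiv h2 (mem_CR hw ?_)
        intro h
        exact t.2.2 (by rw [h, hw3])
      · intro t _ t' _ htt
        have hne : ∀ t : S, w ^ 2 - t.1 * w ≠ 0 := by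
          intro t h
          apply t.2.2
          have : t.1 = w := by
            apply mul_right_cancel₀ hw0
            linear_combination -h
          rw [this, hw3]
        have h1 : (t.1 - 1) / (w ^ 2 - t.1 * w) = (t'.1 - 1) / (w ^ 2 - t'.1 * w) := htt
        rw [div_eq_div_iff (hne t) (hne t')] at h1
        have h2 : (t.1 - t'.1) * (w * (w - 1)) = 0 := by linear_combination h1
        have h3 := (mul_eq_zero.1 h2).resolve_right (mul_ne_zero hw0 (sub_ne_zero.2 hw1))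
        exact Subtype.ext (sub_eq_zero.1 h3)
    · have : f ⁻¹' {q} = ∅ := by
        ext t
        simp only [Set.mem_preimage, Set.mem_singleton_iff, Set.mem_empty_iff_false, iff_false]
        exact fun h => hq ⟨t, h⟩
      rw [this]; exact Set.finite_empty
  rw [← not_countable_iff]
  intro hcount
  apply hSc
  have huniv : (Set.univ : Set S).Countable := by
    have : (Set.univ : Set S) = ⋃ q, f ⁻¹' {q} := by
      ext t; simp
    rw [this]
    exact Set.countable_iUnion hfib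
  exact Set.countable_coe_iff.1 (Set.countable_univ_iff.1 huniv)

end Pool.Agent.T9h86.Geproci
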